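import Pool.Agent.R666.Divot.Final

/-!
# Divots in the distribution of the size of the difference set of a random subset of `{0,…,n-1}`

The conjecture that for all large `n` every divot of the sequence `m ↦ P(|S - S| = m)` is of the
form `k (k - 1) + 3` is false: for every `s ≥ 690` the position `s (s - 1) - 1`, which is not of
this form, is a divot for all large `n`.
-/

set_option autoImplicit false
open Finset

namespace Pool.Agent.Results.MP_d8403e_co.InfinitelyManyDivots

/-- The difference set `S - S = {x - y : x, y ∈ S}`, a set of integers. -/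
def diffSet (S : Finset ℕ) : Finset ℤ := (S ×ˢ S).image fun p => (p.1 : ℤ) - (p.2 : ℤ)

/-- The probability that a uniformly random subset `S` of `{0, 1, …, n - 1}` satisfies
`|S - S| = m`. -/
noncomputable def P (n m : ℕ) : ℝ :=
  ((#{S ∈ (range n).powerset | #(diffSet S) = m} : ℕ) : ℝ) / 2 ^ n

/-- `Q` has a divot at `i`: `Q i > 0`, and `Q i` is less than `Q j` and `Q j'`, where `j < i` is the
largest index below `i` with `Q j ≠ 0` and `j' > i` is the smallest index above `i` with
`Q j' ≠ 0`. -/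
def IsDivot (Q : ℕ → ℝ) (i : ℕ) : Prop :=
  0 < Q i ∧ ∃ j j' : ℕ, (j < i ∧ Q j ≠ 0 ∧ ∀ l, j < l → l < i → Q l = 0) ∧
    (i < j' ∧ Q j' ≠ 0 ∧ ∀ l, i < l → l < j' → Q l = 0) ∧ Q i < Q j ∧ Q i < Q j'

/-- Part (a) of the conjecture. -/
def PartA : Prop := ∀ k : ℕ, 2 ≤ k → ∃ N, ∀ n ≥ N, IsDivot (P n) (k * (k - 1) + 3)

/-- Part (b) of the conjecture. -/
def PartB : Prop := ∃ N, ∀ n ≥ N, ∀ i, IsDivot (P n) i → ∃ k : ℕ, 2 ≤ k ∧ i = k * (k - 1) + 3

theorem not_form (s k : ℕ) (hs : 690 ≤ s) : s * (s - 1) - 1 ≠ k * (k - 1) + 3 := by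
  intro h
  obtain ⟨t, rfl⟩ : ∃ t, s = t + 1 := ⟨s - 1, by omega⟩
  have e1 : t + 1 - 1 = t := by omega
  rw [e1] at h
  rcases le_or_gt k t with hk | hk
  · have h1 : k * (k - 1) ≤ t * (t - 1) := Nat.mul_le_mul hk (by omega)
    have h2 : t * (t - 1) + 2 * t = (t + 1) * t := by
      obtain ⟨u, rfl⟩ : ∃ u, t = u + 1 := ⟨t - 1, by omega⟩
      have e2 : u + 1 - 1 = u := by omega
      rw [e2]
      ring
    omega
  · have h1 : (t + 1) * t ≤ k * (k - 1) := Nat.mul_le_mul hk (by omega)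
    omega

/-- **The conjecture on the divots is false.** For every `s ≥ 690` the distribution of the number of
differences of a random subset of `{0, …, n - 1}` has a divot at `s (s - 1) - 1` for all large `n`,
and this number is not of the form `k (k - 1) + 3`. Hence part (b), and the whole conjecture, fails.
-/
theorem result :
    (∀ s : ℕ, 690 ≤ s → (∃ n₀, ∀ n ≥ n₀, IsDivot (P n) (s * (s - 1) - 1)) ∧
      ∀ k : ℕ, s * (s - 1) - 1 ≠ k * (k - 1) + 3) ∧ ¬ PartB ∧ ¬ (PartA ∧ PartB) := by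
  have main : ∀ s : ℕ, 690 ≤ s → ∃ n₀, ∀ n ≥ n₀, IsDivot (P n) (s * (s - 1) - 1) := by
    intro s hs
    obtain ⟨k, rfl⟩ : ∃ k, s = k + 4 := ⟨s - 4, by omega⟩
    obtain ⟨n₀, h⟩ := Pool.Agent.R666.Divot.main k (by omega)
    refine ⟨n₀, fun n hn => ?_⟩
    obtain ⟨h1, h2, h3⟩ := h n hn
    have hP : ∀ m, P n m = (Pool.Agent.R666.Divot.N n m : ℝ) / 2 ^ n := by
      intro m
      unfold P Pool.Agent.R666.Divot.N
      congr 3
    have hbig : 1000 ≤ (k + 4) * (k + 3) := by nlinarith
    have e1 : k + 4 - 1 = k + 3 := by omega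
    rw [e1]
    have hp : (0 : ℝ) < 2 ^ n := by positivity
    have heven : Even ((k + 4) * (k + 3)) := by
      rw [mul_comm]
      exact Nat.even_mul_succ_self (k + 3)
    obtain ⟨r, hr⟩ := heven
    have z1 : P n ((k + 4) * (k + 3) - 2) = 0 := by
      rw [hP, Pool.Agent.R666.Divot.N_even n (by omega) ⟨r - 1, by omega⟩]
      simp
    have z2 : P n ((k + 4) * (k + 3)) = 0 := by
      rw [hP, Pool.Agent.R666.Divot.N_even n (by omega) ⟨r, hr⟩]
      simp
    have lt : ∀ a b : ℕ, Pool.Agent.R666.Divot.N n a < Pool.Agent.R666.Divot.N n b →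
        P n a < P n b := by
      intro a b hab
      rw [hP, hP]
      exact div_lt_div_of_pos_right (by exact_mod_cast hab) hp
    have pos : 0 < P n ((k + 4) * (k + 3) - 1) := by
      rw [hP]
      exact div_pos (by exact_mod_cast h1) hp
    refine ⟨pos, (k + 4) * (k + 3) - 3, (k + 4) * (k + 3) + 1, ⟨by omega, ?_, ?_⟩,
      ⟨by omega, ?_, ?_⟩, lt _ _ h2, lt _ _ h3⟩
    · exact (pos.trans (lt _ _ h2)).ne'
    · intro l hl hl'
      have : l = (k + 4) * (k + 3) - 2 := by omega
      rw [this]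
      exact z1
    · exact (pos.trans (lt _ _ h3)).ne'
    · intro l hl hl'
      have : l = (k + 4) * (k + 3) := by omega
      rw [this]
      exact z2
  have notB : ¬ PartB := by
    rintro ⟨N, hN⟩
    obtain ⟨n₀, h⟩ := main 690 le_rfl
    obtain ⟨k, _, hk⟩ := hN (max N n₀) (le_max_left _ _) _ (h _ (le_max_right _ _))
    exact not_form 690 k le_rfl hk
  exact ⟨fun s hs => ⟨main s hs, fun k => not_form s k hs⟩, notB, fun h => notB h.2⟩

end Pool.Agent.Results.MP_d8403e_co.InfinitelyManyDivots
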